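import Mathlib

set_option autoImplicit false

namespace Pool.Agent.H348Z.JordanEx

/-- coordinates: `0,1,2` for `s`, `3,4,5` for `s x`, `6` for the derivation -/
def J : Type := Fin 7 → ZMod 2

instance : AddCommGroup J := inferInstanceAs (AddCommGroup (Fin 7 → ZMod 2))

instance : Fintype J := inferInstanceAs (Fintype (Fin 7 → ZMod 2))

instance : DecidableEq J := inferInstanceAs (DecidableEq (Fin 7 → ZMod 2))

def mulJ (a b : Fin 7 → ZMod 2) : Fin 7 → ZMod 2 :=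
  ![a 1 * b 2 + a 2 * b 1 + a 6 * b 3 + a 3 * b 6,
    a 0 * b 2 + a 2 * b 0 + a 6 * b 4 + a 4 * b 6,
    a 0 * b 1 + a 1 * b 0 + a 6 * b 5 + a 5 * b 6,
    a 1 * b 5 + a 2 * b 4 + a 4 * b 2 + a 5 * b 1,
    a 0 * b 5 + a 2 * b 3 + a 3 * b 2 + a 5 * b 0,
    a 0 * b 4 + a 1 * b 3 + a 3 * b 1 + a 4 * b 0,
    0]

theorem mulJ_add (a b c : Fin 7 → ZMod 2) : mulJ a (b + c) = mulJ a b + mulJ a c := by
  funext i; fin_cases i <;> simp [mulJ] <;> ring

theorem mulJ_comm (a b : Fin 7 → ZMod 2) : mulJ a b = mulJ b a := by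
  funext i; fin_cases i <;> simp [mulJ] <;> ring

theorem mulJ_zero (a : Fin 7 → ZMod 2) : mulJ a 0 = 0 := by
  funext i; fin_cases i <;> simp [mulJ]

theorem two_zero : (2 : ZMod 2) = 0 := by decide

theorem mulJ_self (a : Fin 7 → ZMod 2) : mulJ a a = 0 := by
  funext i
  fin_cases i <;> simp [mulJ]
  · linear_combination (a 1 * a 2 + a 3 * a 6) * two_zero
  · linear_combination (a 0 * a 2 + a 4 * a 6) * two_zero
  · linear_combination (a 0 * a 1 + a 5 * a 6) * two_zero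
  · linear_combination (a 1 * a 5 + a 2 * a 4) * two_zero
  · linear_combination (a 0 * a 5 + a 2 * a 3) * two_zero
  · linear_combination (a 0 * a 4 + a 1 * a 3) * two_zero

instance ringJ : NonUnitalNonAssocCommRing J where
  mul := mulJ
  left_distrib := mulJ_add
  right_distrib a b c := by
    change mulJ (a + b) c = mulJ a c + mulJ b c
    rw [mulJ_comm, mulJ_comm a, mulJ_comm b]; exact mulJ_add c a b
  zero_mul a := by
    change mulJ 0 a = 0
    rw [mulJ_comm]; exact mulJ_zero a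
  mul_zero := mulJ_zero
  mul_comm := mulJ_comm

theorem mul_def (a b : J) : a * b = mulJ a b := rfl

theorem jordan (x y : J) : x * x * y * x = x * x * (y * x) := by
  have h : x * x = 0 := mulJ_self x
  rw [h, zero_mul, zero_mul, zero_mul]

def mat (a : Fin 7 → ZMod 2) : Matrix (Fin 6) (Fin 6) (ZMod 2) :=
  !![0, a 2, a 1, a 6, 0, 0;
     a 2, 0, a 0, 0, a 6, 0;
     a 1, a 0, 0, 0, 0, a 6;
     0, a 5, a 4, 0, a 2, a 1;
     a 5, 0, a 3, a 2, 0, a 0;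
     a 4, a 3, 0, a 1, a 0, 0]

theorem mat_add (a b : Fin 7 → ZMod 2) : mat (a + b) = mat a + mat b := by
  ext i j; fin_cases i <;> fin_cases j <;> simp [mat]

def phi : J →+ Matrix (Fin 6) (Fin 6) (ZMod 2) := AddMonoidHom.mk' mat mat_add

theorem phi_inj : Function.Injective phi := by
  intro a b h
  have h' : mat a = mat b := h
  have h0 := congrFun (congrFun h' 1) 2
  have h1 := congrFun (congrFun h' 0) 2
  have h2 := congrFun (congrFun h' 0) 1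
  have h3 := congrFun (congrFun h' 4) 2
  have h4 := congrFun (congrFun h' 3) 2
  have h5 := congrFun (congrFun h' 3) 1
  have h6 := congrFun (congrFun h' 0) 3
  simp [mat] at h0 h1 h2 h3 h4 h5 h6
  change (a : Fin 7 → ZMod 2) = b
  funext i; fin_cases i <;> simpa

theorem mat_mul (a b : Fin 7 → ZMod 2) : mat (mulJ a b) = mat a * mat b + mat b * mat a := by
  have key : ∀ x y : ZMod 2, x = y ↔ x + y = 0 := by decide
  ext i j
  fin_cases i <;> fin_cases j <;>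
    simp [mat, mulJ, Matrix.mul_apply, Fin.sum_univ_succ] <;>
    first
    | ring1
    | (rw [key]; ring_nf; simp [two_zero, show (4 : ZMod 2) = 0 by decide])

def e (i : Fin 7) : Fin 7 → ZMod 2 := fun j => if j = i then 1 else 0

theorem key_dec : ∀ x0 x1 x2 x3 x4 x5 x6 : ZMod 2, ![x0, x1, x2, x3, x4, x5, x6] = 0 ∨
    ∃ i j : Fin 7, mulJ (mulJ (e i) ![x0, x1, x2, x3, x4, x5, x6])
      (mulJ (e j) ![x0, x1, x2, x3, x4, x5, x6]) ≠ 0 := by
  decide +kernel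

theorem semiprime (K : AddSubgroup J) (hK : ∀ r : J, ∀ k ∈ K, r * k ∈ K)
    (h0 : ∀ a ∈ K, ∀ b ∈ K, a * b = 0) : K = ⊥ := by
  rw [eq_bot_iff]
  intro x hx
  have hx' : (x : Fin 7 → ZMod 2) = ![x 0, x 1, x 2, x 3, x 4, x 5, x 6] := by
    funext i; fin_cases i <;> rfl
  rcases key_dec (x 0) (x 1) (x 2) (x 3) (x 4) (x 5) (x 6) with h | ⟨i, j, h⟩
  · rw [← hx'] at h; exact h
  · rw [← hx'] at h
    exact absurd (h0 _ (hK (e i) x hx) _ (hK (e j) x hx)) h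

def I : AddSubgroup J where
  carrier := {a | a 6 = 0}
  add_mem' {a b} ha hb := by
    change a 6 + b 6 = 0
    rw [ha, hb, add_zero]
  zero_mem' := rfl
  neg_mem' {a} ha := by
    change - a 6 = 0
    rw [ha, neg_zero]

def K : AddSubgroup J where
  carrier := {a | a 0 = 0 ∧ a 1 = 0 ∧ a 2 = 0 ∧ a 6 = 0}
  add_mem' {a b} ha hb := by
    change a 0 + b 0 = 0 ∧ a 1 + b 1 = 0 ∧ a 2 + b 2 = 0 ∧ a 6 + b 6 = 0
    rw [ha.1, hb.1, ha.2.1, hb.2.1, ha.2.2.1, hb.2.2.1, ha.2.2.2, hb.2.2.2, add_zero]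
    exact ⟨rfl, rfl, rfl, rfl⟩
  zero_mem' := ⟨rfl, rfl, rfl, rfl⟩
  neg_mem' {a} ha := by
    change - a 0 = 0 ∧ - a 1 = 0 ∧ - a 2 = 0 ∧ - a 6 = 0
    rw [ha.1, ha.2.1, ha.2.2.1, ha.2.2.2, neg_zero]
    exact ⟨rfl, rfl, rfl, rfl⟩

theorem main : ∃ (J : Type) (_ : NonUnitalNonAssocCommRing J),
    (∀ x y : J, x * x * y * x = x * x * (y * x)) ∧
    (∃ φ : J →+ Matrix (Fin 6) (Fin 6) (ZMod 2), Function.Injective φ ∧
      ∀ x y : J, φ (x * y) = φ x * φ y + φ y * φ x) ∧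
    (∀ K : AddSubgroup J, (∀ r : J, ∀ k ∈ K, r * k ∈ K) → (∀ a ∈ K, ∀ b ∈ K, a * b = 0) → K = ⊥) ∧
    ∃ I K : AddSubgroup J, (∀ r : J, ∀ i ∈ I, r * i ∈ I) ∧ K ≤ I ∧
      (∀ r ∈ I, ∀ k ∈ K, r * k ∈ K) ∧ K ≠ ⊥ ∧ ∀ a ∈ K, ∀ b ∈ K, a * b = 0 := by
  refine ⟨J, ringJ, jordan, ⟨phi, phi_inj, fun x y => mat_mul x y⟩, semiprime, I, K, ?_, ?_, ?_, ?_, ?_⟩
  · intro r i _
    change mulJ r i 6 = 0
    simp [mulJ]
  · intro a ha
    exact ha.2.2.2
  · intro r hr k hk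
    have hr' : r 6 = 0 := hr
    obtain ⟨h0, h1, h2, h6⟩ := hk
    change mulJ r k 0 = 0 ∧ mulJ r k 1 = 0 ∧ mulJ r k 2 = 0 ∧ mulJ r k 6 = 0
    simp [mulJ, hr', h0, h1, h2, h6]
  · intro h
    have : (e 3 : J) ∈ K := ⟨by decide, by decide, by decide, by decide⟩
    rw [h] at this
    have h3 : (e 3 : Fin 7 → ZMod 2) = 0 := this
    exact absurd (congrFun h3 3) (by decide)
  · intro a ha b hb
    obtain ⟨a0, a1, a2, a6⟩ := ha
    obtain ⟨b0, b1, b2, b6⟩ := hb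
    change mulJ a b = 0
    funext i; fin_cases i <;> simp [mulJ, a0, a1, a2, a6, b0, b1, b2, b6]

end Pool.Agent.H348Z.JordanEx
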